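import Mathlib

/-!
# Cao's equation `∑ 1/x_i + 1/∏ x_i = 2` : a modular certificate checker

State: a finite set `S` of naturals `> 1` with product `P` and `∑_{x∈S} 1/x + R/P = 2`.
If `R ∣ P + R'` one may add `x = (P+R')/R`, the new state has product `P * x` and numerator `R'`.
A chain of numerators `R_0, R_1, …, R_K = 1` is checked with all `P_i` reduced modulo
`R_i R_{i+1} ⋯ R_K`.
-/

set_option autoImplicit false

namespace Pool.Agent.Cao

/-- `Good P R`: there is a finite set `S` of integers `> 1` with product `P` and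
`∑_{x ∈ S} 1/x = 2 - R/P`, all of whose elements `x` satisfy `x * R < P`. -/
def Good (P R : ℕ) : Prop :=
  R < P ∧ ∃ S : Finset ℕ, (∀ x ∈ S, 1 < x ∧ x * R < P) ∧
    (∑ x ∈ S, (1 : ℚ) / (x : ℚ)) + (R : ℚ) / (P : ℚ) = 2 ∧ ∏ x ∈ S, x = P

lemma Good.step {P R R' : ℕ} (h : Good P R) (hR : 0 < R) (hd : R ∣ P + R') (hlt : R' < P) :
    Good (P * ((P + R') / R)) R' := by
  obtain ⟨hRP, S, hS, hsum, hprod⟩ := h
  obtain ⟨x, hx⟩ := hd
  have hxdiv : (P + R') / R = x := by
    rw [hx]; exact Nat.mul_div_cancel_left x hR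
  rw [hxdiv]
  have hP : 0 < P := lt_of_le_of_lt (Nat.zero_le _) hRP
  have hx1 : 1 < x := by
    by_contra hcon
    have : x ≤ 1 := Nat.le_of_not_lt hcon
    have : R * x ≤ R := by
      calc R * x ≤ R * 1 := Nat.mul_le_mul_left _ this
        _ = R := Nat.mul_one _
    omega
  have hbig : ∀ y ∈ S, y < x := by
    intro y hy
    have h1 := (hS y hy).2
    have h2 : y * R < x * R := by
      calc y * R < P := h1
        _ ≤ P + R' := Nat.le_add_right _ _
        _ = x * R := by rw [hx, Nat.mul_comm]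
    exact lt_of_mul_lt_mul_right h2 (Nat.zero_le _)
  have hnot : x ∉ S := fun hxS => lt_irrefl _ (hbig x hxS)
  refine ⟨?_, insert x S, ?_, ?_, ?_⟩
  · calc R' < P := hlt
      _ = P * 1 := (Nat.mul_one _).symm
      _ ≤ P * x := Nat.mul_le_mul_left _ hx1.le
  · intro y hy
    rw [Finset.mem_insert] at hy
    rcases hy with rfl | hy
    · refine ⟨hx1, ?_⟩
      rw [Nat.mul_comm P]
      exact Nat.mul_lt_mul_of_pos_left hlt (by omega)
    · refine ⟨(hS y hy).1, ?_⟩
      have hy1 := (hS y hy).1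
      calc y * R' < y * P := Nat.mul_lt_mul_of_pos_left hlt (by omega)
        _ ≤ x * P := Nat.mul_le_mul_right _ (hbig y hy).le
        _ = P * x := Nat.mul_comm _ _
  · rw [Finset.sum_insert hnot]
    have hPq : (P : ℚ) ≠ 0 := by exact_mod_cast hP.ne'
    have hxq : (x : ℚ) ≠ 0 := by
      have : x ≠ 0 := by omega
      exact_mod_cast this
    have hxQ : (P : ℚ) + (R' : ℚ) = (R : ℚ) * (x : ℚ) := by exact_mod_cast hx
    have key : (1 : ℚ) / (x : ℚ) + (R' : ℚ) / ((P * x : ℕ) : ℚ) = (R : ℚ) / (P : ℚ) := by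
      push_cast
      field_simp
      linarith
    rw [← hsum, ← key]
    ring
  · rw [Finset.prod_insert hnot, hprod, Nat.mul_comm]

/-- Force evaluation of a natural number in the kernel before continuing. -/
def force {α : Type} (n : ℕ) (f : ℕ → α) : α :=
  Nat.rec (motive := fun _ => α) (f 0) (fun k _ => f (k + 1)) n

lemma force_eq {α : Type} (n : ℕ) (f : ℕ → α) : force n f = f n := by
  cases n <;> rfl

/-- The checker: `B` lower bound for all products, `l` the remaining numerators,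
`R` current numerator, `M` a multiple of `R`, `p` the current product modulo `M`. -/
def check (B : ℕ) (l : List ℕ) : ℕ → ℕ → ℕ → Bool :=
  List.rec (motive := fun _ => ℕ → ℕ → ℕ → Bool)
    (fun R _ _ => Nat.beq R 1)
    (fun R' _ ih R M p =>
      Bool.and (Nat.ble 1 R) (Bool.and (Nat.ble (R' + 1) B) (Bool.and (Nat.beq (M % R) 0)
        (Bool.and (Nat.beq ((p + R') % R) 0)
          (force (M / R) fun M' =>
            force ((p * ((p + R') / R)) % M') fun p' => ih R' M' p')))))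
    l

lemma check_nil (B R M p : ℕ) : check B [] R M p = Nat.beq R 1 := rfl

lemma check_cons (B R' : ℕ) (l : List ℕ) (R M p : ℕ) :
    check B (R' :: l) R M p = true →
      1 ≤ R ∧ R' < B ∧ M % R = 0 ∧ (p + R') % R = 0 ∧
        check B l R' (M / R) ((p * ((p + R') / R)) % (M / R)) = true := by
  intro h
  have h' : (Bool.and (Nat.ble 1 R) (Bool.and (Nat.ble (R' + 1) B) (Bool.and (Nat.beq (M % R) 0)
        (Bool.and (Nat.beq ((p + R') % R) 0)
          (force (M / R) fun M' =>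
            force ((p * ((p + R') / R)) % M') fun p' => check B l R' M' p'))))) = true := h
  rw [force_eq, force_eq] at h'
  simp only [Bool.and_eq_true, Nat.ble_eq] at h'
  exact ⟨h'.1, h'.2.1, Nat.eq_of_beq_eq_true h'.2.2.1, Nat.eq_of_beq_eq_true h'.2.2.2.1,
    h'.2.2.2.2⟩

theorem check_sound (B : ℕ) (l : List ℕ) : ∀ (R M p P : ℕ), check B l R M p = true →
    B ≤ P → P ≡ p [MOD M] → Good P R → ∃ P', Good P' 1 := by
  induction l with
  | nil =>
    intro R M p P h _ _ hG
    rw [check_nil] at h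
    have h1 : R = 1 := Nat.eq_of_beq_eq_true h
    subst h1
    exact ⟨P, hG⟩
  | cons R' l ih =>
    intro R M p P h hB hmod hG
    obtain ⟨h1, h2, h3, h4, h5⟩ := check_cons B R' l R M p h
    have hRM : R ∣ M := Nat.dvd_of_mod_eq_zero h3
    obtain ⟨M', hM'⟩ := hRM
    have hR0 : 0 < R := h1
    have hMdiv : M / R = M' := by rw [hM']; exact Nat.mul_div_cancel_left M' hR0
    rw [hMdiv] at h5
    have hpd : R ∣ p + R' := Nat.dvd_of_mod_eq_zero h4
    have hmod1 : P + R' ≡ p + R' [MOD R * M'] := by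
      rw [← hM']; exact Nat.ModEq.add_right _ hmod
    have hPd : R ∣ P + R' := by
      have : P + R' ≡ p + R' [MOD R] := Nat.ModEq.of_mul_right M' hmod1
      exact (Nat.modEq_zero_iff_dvd).1 (this.trans ((Nat.modEq_zero_iff_dvd).2 hpd))
    have hdivmod : (P + R') / R ≡ (p + R') / R [MOD M'] := by
      obtain ⟨a, ha⟩ := hPd
      obtain ⟨b, hb⟩ := hpd
      rw [ha, hb, Nat.mul_div_cancel_left a hR0, Nat.mul_div_cancel_left b hR0]
      rw [ha, hb] at hmod1
      exact Nat.ModEq.mul_left_cancel' hR0.ne' hmod1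
    have hmodM' : P ≡ p [MOD M'] := by
      rw [hM', Nat.mul_comm] at hmod
      exact Nat.ModEq.of_mul_right R hmod
    have hnew : P * ((P + R') / R) ≡ (p * ((p + R') / R)) % M' [MOD M'] :=
      (hmodM'.mul hdivmod).trans (Nat.mod_modEq _ _).symm
    have hG' := hG.step hR0 hPd (lt_of_lt_of_le h2 hB)
    refine ih R' M' _ _ h5 ?_ hnew hG'
    -- B ≤ P * x
    have hx1 : 1 ≤ (P + R') / R := by
      rw [Nat.le_div_iff_mul_le hR0]
      have := hG.1
      omega
    calc B ≤ P := hB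
      _ = P * 1 := (Nat.mul_one _).symm
      _ ≤ P * ((P + R') / R) := Nat.mul_le_mul_left _ hx1

/-- Final conversion. -/
theorem solution_of_good (h : ∃ P, Good P 1) :
    ∃ s : ℕ, ∃ x : Fin s → ℕ, StrictMono x ∧ (∀ i, 1 < x i) ∧
      (∑ i, (1 : ℚ) / (x i : ℚ)) + 1 / (∏ i, (x i : ℚ)) = 2 := by
  obtain ⟨P, _, S, hS, hsum, hprod⟩ := h
  refine ⟨S.card, fun i => S.orderEmbOfFin rfl i, (S.orderEmbOfFin rfl).strictMono, ?_, ?_⟩
  · intro i
    exact (hS _ (S.orderEmbOfFin_mem rfl i)).1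
  · have h1 : (∑ i : Fin S.card, (1 : ℚ) / ((S.orderEmbOfFin rfl i : ℕ) : ℚ))
        = ∑ x ∈ S, (1 : ℚ) / (x : ℚ) := by
      rw [← Finset.sum_coe_sort S (fun x : ℕ => (1 : ℚ) / (x : ℚ))]
      exact Fintype.sum_equiv (S.orderIsoOfFin rfl).toEquiv _ _ (fun i => rfl)
    have h2 : (∏ i : Fin S.card, ((S.orderEmbOfFin rfl i : ℕ) : ℚ)) = (P : ℚ) := by
      rw [← hprod, Nat.cast_prod, ← Finset.prod_coe_sort S (fun x : ℕ => (x : ℚ))]
      exact Fintype.prod_equiv (S.orderIsoOfFin rfl).toEquiv _ _ (fun i => rfl)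
    rw [h1, h2]
    simpa using hsum

/-- Initial state from a list of start values. -/
theorem good_of_list (l : List ℕ) (P R : ℕ) (hnd : l.Nodup) (hprod : l.prod = P)
    (hRP : R < P) (hall : ∀ x ∈ l, 1 < x ∧ x * R < P)
    (hsum : (l.map fun x : ℕ => (1 : ℚ) / (x : ℚ)).sum + (R : ℚ) / (P : ℚ) = 2) : Good P R := by
  refine ⟨hRP, l.toFinset, ?_, ?_, ?_⟩
  · intro x hx
    exact hall x (List.mem_toFinset.1 hx)
  · rw [List.sum_toFinset _ hnd]
    exact hsum
  · rw [List.prod_toFinset (fun x => x) hnd]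
    simpa using hprod

end Pool.Agent.Cao
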